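import Pool.Agent.L0h32.UY.Stm

/-!
# Project UY: module CUT (helper24)
-/

set_option autoImplicit false
set_option linter.all false

namespace Pool.Agent.L0h24.UY

open Relation
open Pool.Agent.H630R2.LA
open Pool.Agent.L0h32.UX (IsRun)
open Pool.Agent.L0h32.UY

theorem ch1 {α : Type*} {R : α → α → Prop} {b e : α} (h : ReflTransGen R b e) :
    ∃ l, List.IsChain R (b :: l) ∧ (b :: l).getLast? = some e := by
  induction h using ReflTransGen.head_induction_on with
  | refl => exact ⟨[], by simp, by simp⟩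
  | head h1 _ ih =>
    obtain ⟨l, h3, h4⟩ := ih
    exact ⟨_ :: l, List.isChain_cons_cons.2 ⟨h1, h3⟩, by rw [List.getLast?_cons_cons]; exact h4⟩

theorem ch2 {α : Type*} {R : α → α → Prop} {a b e : α} (h : ReflTransGen R a b)
    (h' : ReflTransGen R b e) :
    ∃ l, List.IsChain R (a :: l) ∧ (a :: l).getLast? = some e ∧ b ∈ a :: l := by
  induction h using ReflTransGen.head_induction_on with
  | refl =>
    obtain ⟨l, h1, h2⟩ := ch1 h'
    exact ⟨l, h1, h2, by simp⟩
  | head h1 _ ih =>
    obtain ⟨l, h3, h4, h5⟩ := ih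
    exact ⟨_ :: l, List.isChain_cons_cons.2 ⟨h1, h3⟩,
      by rw [List.getLast?_cons_cons]; exact h4, List.mem_cons_of_mem _ h5⟩

variable {A : Type} {strict : Prop} {M : LimAut A}

/-- the invariant: `m` cells have been visited, the table and the state are `z` -/
def Inv (w : List A) (m : ℕ) (z : Set (M.Q × M.Q) × M.Q) (strict : Prop) (τ : ℕ → Sym M.W)
    (S : Set ℕ) : Prop :=
  (∀ i, 1 ≤ i → (i ∈ S ↔ i ≤ m)) ∧ (∀ i, m < i → τ i = initTape M w i) ∧ τ 0 = .lm ∧
    Tab strict M τ m = z.1

/-- one step -/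
theorem step (w : List A) (m : ℕ) (hm : m + 1 ≤ w.length + 1) (y x : Set (M.Q × M.Q) × M.Q)
    (τ : ℕ → Sym M.W) (S : Set ℕ) (hI : Inv w m y strict τ S)
    (hn : nstep strict M (initTape M w (m + 1)) y x) :
    ∃ (τ' : ℕ → Sym M.W) (S' : Set ℕ), Inv w (m + 1) x strict τ' S' ∧
      ReflTransGen (Step strict w.length) (⟨y.2, m + 1, τ, S⟩ : Cfg M) ⟨x.2, m + 2, τ', S'⟩ := by
  obtain ⟨hS, hτ, h0, hT⟩ := hI
  obtain ⟨q, b, d, hδ, hR, hr, hl⟩ := hn
  set τ' : ℕ → Sym M.W := Function.update τ (m + 1) ((τ (m + 1)).rewrite b) with hτ'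
  have hagree : ∀ i, i ≤ m → τ' i = τ i := by
    intro i hi
    rw [hτ', Function.update_of_ne]
    omega
  have hnew : τ' (m + 1) = (initTape M w (m + 1)).rewrite b := by
    rw [hτ', Function.update_self, hτ _ (by omega)]
  have htab : Tab strict M τ' (m + 1) = x.1 := by
    rw [Tab_succ, hnew, Tab.congr hagree, hT, hR]
  have hnot : m + 1 ∉ S := by
    intro h
    have := (hS (m + 1) (by omega)).1 h
    omega
  have hS1 : ∀ i, 1 ≤ i → (i ∈ insert (m + 1) S ↔ i ≤ m + 1) := by
    intro i hi
    rw [Set.mem_insert_iff, hS i hi]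
    omega
  have h0' : τ' 0 = .lm := by rw [hagree 0 (by omega)]; exact h0
  have hδ' : (q, b, d) ∈ M.δ y.2 (τ (m + 1)) := by rw [hτ _ (by omega)]; exact hδ
  have hτn : ∀ i, m + 1 < i → τ' i = initTape M w i := by
    intro i hi
    rw [hτ', Function.update_of_ne (by omega)]
    exact hτ i (by omega)
  cases d
  · obtain ⟨s, hs1, hs2⟩ := hl rfl
    have hstep : Step strict w.length (⟨y.2, m + 1, τ, S⟩ : Cfg M)
        ⟨q, m, τ', insert (m + 1) S⟩ :=
      ⟨hm, q, b, false, hδ', fun _ h => absurd h hnot, rfl, fun h => absurd h hnot,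
        fun _ => rfl, rfl, by simp, by simp⟩
    have hpath : ReflTransGen (Fr strict M τ' (m + 1)) (q, m) (x.2, m + 2) := by
      have h1 : ReflTransGen (Fr strict M τ m) (q, m) (s, m + 1) := by
        have := hs1
        rw [← hT] at this
        exact this
      have h2 : ReflTransGen (Fr strict M τ' (m + 1)) (q, m) (s, m + 1) :=
        FrS.mono (Nat.le_succ m) (FrS.congr (fun i hi => (hagree i hi).symm) h1)
      refine h2.trans ?_
      have := hs2
      rw [← htab] at this
      exact this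
    obtain ⟨S', hS', hlift⟩ := lift hm h0' hpath _ hS1
    exact ⟨τ', S', ⟨hS', hτn, h0', htab⟩, ReflTransGen.head hstep hlift⟩
  · have hq := hr rfl
    have hstep : Step strict w.length (⟨y.2, m + 1, τ, S⟩ : Cfg M)
        ⟨q, m + 2, τ', insert (m + 1) S⟩ :=
      ⟨hm, q, b, true, hδ', fun _ h => absurd h hnot, rfl, fun h => absurd h hnot,
        fun _ => rfl, rfl, by simp, by simp⟩
    refine ⟨τ', insert (m + 1) S, ⟨hS1, hτn, h0', htab⟩, ?_⟩
    rw [hq]
    exact ReflTransGen.single hstep

/-- the steps on the letters of `y` -/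
theorem steps (w : List A) (y : List A) : ∀ (m : ℕ) (z z' : Set (M.Q × M.Q) × M.Q)
    (τ : ℕ → Sym M.W) (S : Set ℕ), Inv w m z strict τ S → m + y.length ≤ w.length →
    (∀ i, (hi : i < y.length) → initTape M w (m + 1 + i) = .sym (M.inp y[i])) →
    runs strict M y z z' → ∃ (τ' : ℕ → Sym M.W) (S' : Set ℕ), Inv w (m + y.length) z' strict τ' S' ∧
      ReflTransGen (Step strict w.length) (⟨z.2, m + 1, τ, S⟩ : Cfg M)
        ⟨z'.2, m + y.length + 1, τ', S'⟩ := by
  induction y with
  | nil =>
    intro m z z' τ S hI hm hy hr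
    have h : z = z' := hr
    subst h
    exact ⟨τ, S, hI, ReflTransGen.refl⟩
  | cons a y ih =>
    intro m z z' τ S hI hm hy hr
    obtain ⟨z1, h1, h2⟩ := hr
    rw [List.length_cons] at hm
    have ha : initTape M w (m + 1) = .sym (M.inp a) := by
      have := hy 0 (by simp)
      simpa using this
    obtain ⟨τ1, S1, hI1, hr1⟩ := step w m (by omega) z z1 τ S hI (by rw [ha]; exact h1)
    obtain ⟨τ2, S2, hI2, hr2⟩ := ih (m + 1) z1 z' τ1 S1 hI1 (by omega) (fun i hi => by
      have h3 := hy (i + 1) (by rw [List.length_cons]; omega)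
      rw [List.getElem_cons_succ] at h3
      have e : m + 1 + 1 + i = m + 1 + (i + 1) := by omega
      rw [e]
      exact h3) h2
    refine ⟨τ2, S2, ?_, ?_⟩
    · have e : m + (a :: y).length = m + 1 + y.length := by rw [List.length_cons]; omega
      rw [e]
      exact hI2
    · have e : m + (a :: y).length + 1 = m + 1 + y.length + 1 := by rw [List.length_cons]; omega
      rw [e]
      exact hr1.trans hr2

/-- **CUT** -/
theorem t_CUT : S_CUT := by
  intro A strict M x y z z' hx hy hf
  have hlen : (x ++ y).length = x.length + y.length := List.length_append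
  have hnr : nreach strict M (initTape M (x ++ y)) x.length z := by
    rw [nreach_iff_runs (x ++ y) x.length (by omega), List.take_left']
    · exact hx
    · rfl
  obtain ⟨τ, S, hS, hτ, h0, hT, hreach⟩ := backward (x ++ y) x.length (by omega) z hnr
  obtain ⟨τ1, S1, hI1, hr1⟩ := steps (x ++ y) y x.length z z' τ S ⟨hS, hτ, h0, hT⟩ (by omega)
    (fun i hi => by
      have h1 : (x ++ y)[x.length + i]? = some y[i] := by
        rw [List.getElem?_append_right (by omega), Nat.add_sub_cancel_left,
          List.getElem?_eq_getElem hi]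
      have e : x.length + 1 + i = (x.length + i) + 1 := by omega
      rw [e]
      simp only [initTape, h1]) hy
  obtain ⟨z2, hn, hF⟩ := hf
  have hrm : initTape M (x ++ y) (x.length + y.length + 1) = .rm := by
    have h1 : (x ++ y)[x.length + y.length]? = none := by
      rw [List.getElem?_eq_none]
      omega
    simp only [initTape, h1]
  obtain ⟨τ2, S2, hI2, hr2⟩ := step (x ++ y) (x.length + y.length) (by omega) z' z2 τ1 S1 hI1
    (by rw [hrm]; exact hn)
  obtain ⟨l, hl1, hl2, hl3⟩ := ch2 hreach (hr1.trans hr2)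
  refine ⟨_ :: l, ⟨by simp, hl1, _, hl2, ?_, Or.inl hF⟩, _, hl3, rfl, ?_, rfl, hT⟩
  · show x.length + y.length + 2 = (x ++ y).length + 2
    rw [hlen]
  · intro h
    have h1 := (hS (x.length + 1) (by omega)).1 h
    omega

end Pool.Agent.L0h24.UY
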